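import Pool.Agent.MP_c1891a_nt.H43.Spec

/-
Two very small values give a common root nearby.
-/

namespace Pool.Agent.MP_c1891a_nt.H43

open Finset Polynomial Module

theorem twoA_abs_le (P : LP) {μ : ℤ × ℤ} (hμ : μ ∈ P.coeff.support) :
    μ.1.natAbs ≤ Rn P ∧ μ.2.natAbs ≤ Rn P := by
  have h : max μ.1.natAbs μ.2.natAbs ≤ Rn P :=
    Finset.le_sup (f := fun μ : ℤ × ℤ => max μ.1.natAbs μ.2.natAbs) hμ
  exact ⟨le_trans (le_max_left _ _) h, le_trans (le_max_right _ _) h⟩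

theorem twoA_lin_le (P : LP) (v₁ v₂ : ℤ) {μ : ℤ × ℤ} (hμ : μ ∈ P.coeff.support) :
    |v₁ * μ.1 + v₂ * μ.2| ≤ (A1 P v₁ v₂ : ℤ) := by
  obtain ⟨h1, h2⟩ := twoA_abs_le P hμ
  have h1' : |μ.1| ≤ (Rn P : ℤ) := by rw [Int.abs_eq_natAbs]; exact_mod_cast h1
  have h2' : |μ.2| ≤ (Rn P : ℤ) := by rw [Int.abs_eq_natAbs]; exact_mod_cast h2
  have e : (A1 P v₁ v₂ : ℤ) = (Rn P : ℤ) * (|v₁| + |v₂|) := by
    simp [A1]
  rw [e]
  calc |v₁ * μ.1 + v₂ * μ.2| ≤ |v₁ * μ.1| + |v₂ * μ.2| := abs_add_le _ _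
    _ = |v₁| * |μ.1| + |v₂| * |μ.2| := by rw [abs_mul, abs_mul]
    _ ≤ |v₁| * (Rn P : ℤ) + |v₂| * (Rn P : ℤ) := by gcongr
    _ = _ := by ring

theorem twoA_ex_cast (P : LP) (v₁ v₂ : ℤ) {μ : ℤ × ℤ} (hμ : μ ∈ P.coeff.support) :
    (ex P v₁ v₂ μ : ℤ) = (A1 P v₁ v₂ : ℤ) + v₁ * μ.1 + v₂ * μ.2 := by
  have h := abs_le.mp (twoA_lin_le P v₁ v₂ hμ)
  unfold ex
  rw [Int.toNat_of_nonneg (by linarith [h.1])]

theorem twoA_ex_le (P : LP) (v₁ v₂ : ℤ) {μ : ℤ × ℤ} (hμ : μ ∈ P.coeff.support) :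
    ex P v₁ v₂ μ ≤ 2 * A1 P v₁ v₂ := by
  have h := abs_le.mp (twoA_lin_le P v₁ v₂ hμ)
  have h2 := twoA_ex_cast P v₁ v₂ hμ
  have : (ex P v₁ v₂ μ : ℤ) ≤ 2 * (A1 P v₁ v₂ : ℤ) := by linarith [h.2]
  exact_mod_cast this

theorem twoA_sum_eq {F : Type} [Field F] (P : LP) (η₁ η₂ α : F) (v₁ v₂ : ℤ) (hα : α ≠ 0) :
    ∑ μ ∈ P.coeff.support, (P.coeff μ : F) * η₁ ^ μ.1 * η₂ ^ μ.2 * α ^ ex P v₁ v₂ μ =
      α ^ A1 P v₁ v₂ * ev P (η₁ * α ^ v₁) (η₂ * α ^ v₂) := by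
  unfold ev
  rw [Finset.mul_sum]
  refine Finset.sum_congr rfl fun μ hμ => ?_
  rw [← zpow_natCast α (ex P v₁ v₂ μ), twoA_ex_cast P v₁ v₂ hμ, zpow_add₀ hα, zpow_add₀ hα,
    zpow_natCast, mul_zpow, mul_zpow, ← zpow_mul, ← zpow_mul]
  ring

theorem twoA_F1_eval {F : Type} [Field F] (P : LP) (η₁ η₂ α : F) (v₁ v₂ : ℤ) (hα : α ≠ 0) :
    (F1 P η₁ η₂ v₁ v₂).eval α = α ^ A1 P v₁ v₂ * ev P (η₁ * α ^ v₁) (η₂ * α ^ v₂) := by
  rw [← twoA_sum_eq P η₁ η₂ α v₁ v₂ hα]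
  simp [F1, eval_finsetSum]

theorem twoA_F1_map {F G : Type} [Field F] [Field G] (σ : F →+* G) (P : LP) (η₁ η₂ : F)
    (v₁ v₂ : ℤ) : (F1 P η₁ η₂ v₁ v₂).map σ = F1 P (σ η₁) (σ η₂) v₁ v₂ := by
  simp [F1, Polynomial.map_sum]

theorem twoA_F1_deg {F : Type} [Field F] (P : LP) (η₁ η₂ : F) (v₁ v₂ : ℤ) :
    (F1 P η₁ η₂ v₁ v₂).natDegree ≤ 2 * A1 P v₁ v₂ := by
  unfold F1
  refine natDegree_sum_le_of_forall_le _ _ fun μ hμ => ?_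
  exact le_trans (natDegree_C_mul_X_pow_le _ _) (twoA_ex_le P v₁ v₂ hμ)

theorem twoA_int_zpow {F : Type} [Field F] {ω : F} {g : ℕ} (hg : 0 < g) (hω : ω ^ g = 1)
    (k : ℤ) : IsIntegral ℤ (ω ^ k) := by
  have h : (ω ^ k) ^ g = 1 := by
    rw [← zpow_natCast, ← zpow_mul, mul_comm, zpow_mul, zpow_natCast, hω, one_zpow]
  exact IsIntegral.of_pow hg (by rw [h]; exact isIntegral_one)

theorem twoA_int_term {F : Type} [Field F] {ω : F} {g : ℕ} (hg : 0 < g) (hω : ω ^ g = 1)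
    (c k₁ k₂ a b : ℤ) : IsIntegral ℤ ((c : F) * (ω ^ k₁) ^ a * (ω ^ k₂) ^ b) := by
  rw [← zpow_mul, ← zpow_mul]
  refine IsIntegral.mul (IsIntegral.mul ?_ (twoA_int_zpow hg hω _)) (twoA_int_zpow hg hω _)
  exact isIntegral_algebraMap (R := ℤ) (A := F) (x := c)

theorem twoA_F1_int {F : Type} [Field F] {ω : F} {g : ℕ} (hg : 0 < g) (hω : ω ^ g = 1)
    (P : LP) (k₁ k₂ v₁ v₂ : ℤ) : IntC (F1 P (ω ^ k₁) (ω ^ k₂) v₁ v₂) := by
  intro i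
  unfold F1
  rw [finsetSum_coeff]
  refine IsIntegral.sum _ fun μ _ => ?_
  rw [coeff_C_mul_X_pow]
  split_ifs
  · exact twoA_int_term hg hω _ _ _ _ _
  · exact isIntegral_zero

theorem twoA_norm_zpow {ω : ℂ} {g : ℕ} (hg : 0 < g) (hω : ω ^ g = 1) (k : ℤ) :
    ‖ω ^ k‖ = 1 := by
  rw [norm_zpow, Complex.norm_eq_one_of_pow_eq_one hω hg.ne', one_zpow]

theorem twoA_sum_norm (P : LP) (η₁ η₂ : ℂ) (h₁ : ‖η₁‖ = 1) (h₂ : ‖η₂‖ = 1) :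
    ∑ μ ∈ P.coeff.support, ‖(P.coeff μ : ℂ) * η₁ ^ μ.1 * η₂ ^ μ.2‖ = (Hn P : ℝ) := by
  unfold Hn
  push_cast
  refine Finset.sum_congr rfl fun μ _ => ?_
  rw [norm_mul, norm_mul, norm_zpow, norm_zpow, h₁, h₂, one_zpow, one_zpow, mul_one, mul_one,
    Complex.norm_intCast, Nat.cast_natAbs, Int.cast_abs]

theorem twoA_l1_sum {ι : Type} (s : Finset ι) (c : ι → ℂ) (a : ι → ℕ) :
    ((∑ i ∈ s, C (c i) * X ^ a i : ℂ[X]).sum fun _ z => ‖z‖) ≤ ∑ i ∈ s, ‖c i‖ := by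
  classical
  set f : ℂ[X] := ∑ i ∈ s, C (c i) * X ^ a i with hf
  rw [Polynomial.sum_def]
  calc ∑ n ∈ f.support, ‖f.coeff n‖
      ≤ ∑ n ∈ f.support, ∑ i ∈ s, if n = a i then ‖c i‖ else 0 := by
        refine Finset.sum_le_sum fun n _ => ?_
        rw [hf, finsetSum_coeff]
        refine le_trans (norm_sum_le _ _) (Finset.sum_le_sum fun i _ => ?_)
        rw [coeff_C_mul_X_pow]
        split_ifs <;> simp
    _ = ∑ i ∈ s, ∑ n ∈ f.support, if n = a i then ‖c i‖ else 0 := Finset.sum_comm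
    _ ≤ ∑ i ∈ s, ‖c i‖ := by
        refine Finset.sum_le_sum fun i _ => ?_
        rw [Finset.sum_ite_eq']
        split_ifs
        · exact le_rfl
        · exact norm_nonneg _

theorem twoA_F1_mahler (P : LP) (η₁ η₂ : ℂ) (h₁ : ‖η₁‖ = 1) (h₂ : ‖η₂‖ = 1) (v₁ v₂ : ℤ) :
    (F1 P η₁ η₂ v₁ v₂).mahlerMeasure ≤ (Hn P : ℝ) := by
  refine le_trans (mahlerMeasure_le_sum_norm_coeff _) ?_
  unfold F1
  exact le_trans (twoA_l1_sum _ _ _) (twoA_sum_norm P η₁ η₂ h₁ h₂).le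

theorem twoA_mahler_prod {ι : Type} (s : Finset ι) (f : ι → ℂ[X]) :
    (∏ i ∈ s, f i).mahlerMeasure = ∏ i ∈ s, (f i).mahlerMeasure := by
  classical
  induction s using Finset.induction_on with
  | empty => simp
  | insert a s ha ih => rw [Finset.prod_insert ha, Finset.prod_insert ha, mahlerMeasure_mul, ih]

theorem twoA_pow_sub (α β : ℂ) (hα : ‖α‖ ≤ 2) (hβ : ‖β‖ ≤ 1) (a : ℕ) :
    ‖α ^ a - β ^ a‖ ≤ 4 ^ a * ‖α - β‖ := by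
  induction a with
  | zero => simp
  | succ a ih =>
    have e : α ^ (a + 1) - β ^ (a + 1) = α * (α ^ a - β ^ a) + (α - β) * β ^ a := by ring
    have h1 : ‖β ^ a‖ ≤ 1 := by rw [norm_pow]; exact pow_le_one₀ (norm_nonneg _) hβ
    have h2 : (1 : ℝ) ≤ 4 ^ a := one_le_pow₀ (by norm_num)
    have h3 := norm_nonneg (α - β)
    rw [e]
    calc ‖α * (α ^ a - β ^ a) + (α - β) * β ^ a‖
        ≤ ‖α‖ * ‖α ^ a - β ^ a‖ + ‖α - β‖ * ‖β ^ a‖ := by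
          refine le_trans (norm_add_le _ _) ?_
          rw [norm_mul, norm_mul]
      _ ≤ 2 * (4 ^ a * ‖α - β‖) + ‖α - β‖ * 1 := by gcongr
      _ ≤ 4 ^ (a + 1) * ‖α - β‖ := by rw [pow_succ]; nlinarith

theorem twoA_A1_le (P : LP) (g : ℕ) (v₁ v₂ : ℤ) (U : ℝ) (r : ℕ) (hr : Rn P ≤ r)
    (h₁ : (g : ℝ) * (|v₁| + 1) ≤ U) (h₂ : (g : ℝ) * (|v₂| + 1) ≤ U) :
    (g : ℝ) * ((2 * A1 P v₁ v₂ : ℕ) : ℝ) ≤ 4 * r * U := by
  have e : ((A1 P v₁ v₂ : ℕ) : ℝ) = (Rn P : ℝ) * (|(v₁ : ℝ)| + |(v₂ : ℝ)|) := by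
    simp [A1]
  have hr' : (Rn P : ℝ) ≤ r := by exact_mod_cast hr
  have hg : (0 : ℝ) ≤ g := Nat.cast_nonneg g
  have ha := abs_nonneg (v₁ : ℝ)
  have hb := abs_nonneg (v₂ : ℝ)
  have hR : (0 : ℝ) ≤ Rn P := Nat.cast_nonneg _
  push_cast at h₁ h₂ ⊢
  rw [e]
  have h3 : (g : ℝ) * (|(v₁ : ℝ)| + |(v₂ : ℝ)|) ≤ 2 * U := by nlinarith
  have h4 : 0 ≤ (g : ℝ) * (|(v₁ : ℝ)| + |(v₂ : ℝ)|) := by positivity
  calc (g : ℝ) * (2 * ((Rn P : ℝ) * (|(v₁ : ℝ)| + |(v₂ : ℝ)|)))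
      = 2 * (Rn P : ℝ) * ((g : ℝ) * (|(v₁ : ℝ)| + |(v₂ : ℝ)|)) := by ring
    _ ≤ 2 * (r : ℝ) * (2 * U) := by gcongr
    _ = 4 * r * U := by ring

theorem twoA_pow_le_exp (h : ℝ) (n : ℕ) (x : ℝ) (hh : 0 ≤ h) (hn : (n : ℝ) ≤ x) :
    h ^ n ≤ Real.exp (h * x) := by
  calc h ^ n ≤ Real.exp h ^ n := by
        gcongr
        linarith [Real.add_one_le_exp h]
    _ = Real.exp (h * n) := by rw [← Real.exp_nat_mul, mul_comm]
    _ ≤ Real.exp (h * x) := by gcongr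

/-- Liouville's bound for the second polynomial at a root of the first. -/
theorem twoA_low (h2 : SField) (h3 : SNormP) (h4 : SLV) (P Q : LP) (g : ℕ) (ω X₀ α : ℂ)
    (k v : Fin 4 → ℤ) (U : ℝ) (h r : ℕ) (hh1 : 1 ≤ h) (hhP : Hn P ≤ h) (hhQ : Hn Q ≤ h)
    (hrP : Rn P ≤ r) (hrQ : Rn Q ≤ r) (hg : 0 < g) (hω : IsPrimitiveRoot ω g) (hX : X₀ ≠ 0)
    (hU : ∀ i, (g : ℝ) * (|v i| + 1) ≤ U)
    (hP0 : ev P (ω ^ k 0 * X₀ ^ v 0) (ω ^ k 1 * X₀ ^ v 1) ≠ 0) (hα : α ≠ 0)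
    (halg : IsAlgebraic ℚ α) (hPα : ev P (ω ^ k 0 * α ^ v 0) (ω ^ k 1 * α ^ v 1) = 0)
    (hQα : ev Q (ω ^ k 2 * α ^ v 2) (ω ^ k 3 * α ^ v 3) ≠ 0) :
    1 ≤ ‖∑ μ ∈ Q.coeff.support, (Q.coeff μ : ℂ) * (ω ^ k 2) ^ μ.1 * (ω ^ k 3) ^ μ.2 *
      α ^ ex Q (v 2) (v 3) μ‖ * Real.exp (8 * h * r * U) := by
  classical
  obtain ⟨L, _, _, ι, ω', hω', hrk, -⟩ := h2.1 g ω hg hω
  obtain ⟨K, _, _, _, ι', p', q', hι', hp', hq', hdet⟩ := h2.2 L ι α α halg halg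
  have hpq : q' = p' := ι'.injective (by rw [hp', hq'])
  have hω'g : ω' ^ g = 1 := ι.injective (by rw [map_pow, hω', hω.pow_eq_one, map_one])
  have hhR : (1 : ℝ) ≤ h := by exact_mod_cast hh1
  have hg1 : (1 : ℝ) ≤ g := by exact_mod_cast hg
  have hU0 : 0 ≤ U := le_trans (by positivity) (hU 0)
  set f : L[X] := F1 P (ω' ^ k 0) (ω' ^ k 1) (v 0) (v 1) with hf
  have hfι : f.map ι = F1 P (ω ^ k 0) (ω ^ k 1) (v 0) (v 1) := by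
    rw [hf, twoA_F1_map, map_zpow₀, map_zpow₀, hω']
  have hf0 : f ≠ 0 := by
    intro h0
    have h5 := twoA_F1_eval P (ω ^ k 0) (ω ^ k 1) X₀ (v 0) (v 1) hX
    rw [← hfι, h0, Polynomial.map_zero, eval_zero] at h5
    exact mul_ne_zero (pow_ne_zero _ hX) hP0 h5.symm
  have hroot : aeval p' f = 0 := by
    apply ι'.injective
    have hc : ι'.comp (algebraMap L K) = ι := RingHom.ext hι'
    rw [map_zero, aeval_def, hom_eval₂, hc, hp', ← eval_map, hfι, twoA_F1_eval _ _ _ _ _ _ hα, hPα,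
      mul_zero]
  obtain ⟨-, hN2, hN3⟩ := h3 L
  obtain ⟨T, hT⟩ := hN2 f (twoA_F1_int hg hω'g P _ _ _ _)
  have hdvd : ∏ σ : K →+* ℂ, (X - C (σ p')) ∣ cx T := by
    rw [hT]
    exact hN3 K f p' hf0 hroot fun σ τ h5 h6 => hdet σ τ h5 h6 (by rw [hpq]; exact h6)
  have hcT0 : cx T ≠ 0 := by
    rw [hT]
    exact Finset.prod_ne_zero_iff.mpr fun σ _ => (Polynomial.map_ne_zero_iff σ.injective).mpr hf0
  have hT0 : T ≠ 0 := by
    rintro rfl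
    exact hcT0 (by simp [cx])
  have hcardL : Fintype.card (L →+* ℂ) ≤ g := by
    rw [NumberField.Embeddings.card, hrk]
    exact Nat.totient_le g
  have hdegT : (cx T).natDegree ≤ g * (2 * A1 P (v 0) (v 1)) := by
    rw [hT]
    refine le_trans (natDegree_prod_le _ _) ?_
    calc ∑ σ : L →+* ℂ, (f.map σ).natDegree ≤ ∑ _σ : L →+* ℂ, 2 * A1 P (v 0) (v 1) :=
          Finset.sum_le_sum fun σ _ => le_trans natDegree_map_le (twoA_F1_deg _ _ _ _ _)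
      _ = Fintype.card (L →+* ℂ) * (2 * A1 P (v 0) (v 1)) := by simp
      _ ≤ _ := Nat.mul_le_mul_right _ hcardL
  have hrkK : finrank ℚ K ≤ g * (2 * A1 P (v 0) (v 1)) := by
    refine le_trans ?_ (le_trans (natDegree_le_of_dvd hdvd hcT0) hdegT)
    rw [natDegree_prod_of_monic _ _ fun σ _ => monic_X_sub_C _]
    simp [NumberField.Embeddings.card]
  have hM : (cx T).mahlerMeasure ≤ (h : ℝ) ^ g := by
    rw [hT, twoA_mahler_prod]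
    calc ∏ σ : L →+* ℂ, (f.map σ).mahlerMeasure ≤ ∏ _σ : L →+* ℂ, (h : ℝ) := by
          refine Finset.prod_le_prod (fun σ _ => mahlerMeasure_nonneg _) fun σ _ => ?_
          have hσ : (σ ω') ^ g = 1 := by rw [← map_pow, hω'g, map_one]
          rw [hf, twoA_F1_map, map_zpow₀, map_zpow₀]
          refine le_trans (twoA_F1_mahler P _ _ (twoA_norm_zpow hg hσ _)
            (twoA_norm_zpow hg hσ _) _ _) ?_
          exact_mod_cast hhP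
      _ = (h : ℝ) ^ Fintype.card (L →+* ℂ) := by simp
      _ ≤ (h : ℝ) ^ g := pow_le_pow_right₀ hhR hcardL
  set w : K := algebraMap L K ω' with hw
  have hwg : w ^ g = 1 := by rw [hw, ← map_pow, hω'g, map_one]
  have hwι : ι' w = ω := by rw [hw, hι', hω']
  have hval : ι' (∑ μ ∈ Q.coeff.support, ((Q.coeff μ : K) * (w ^ k 2) ^ μ.1 * (w ^ k 3) ^ μ.2) *
      p' ^ ex Q (v 2) (v 3) μ * p' ^ 0) =
      ∑ μ ∈ Q.coeff.support, (Q.coeff μ : ℂ) * (ω ^ k 2) ^ μ.1 * (ω ^ k 3) ^ μ.2 *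
        α ^ ex Q (v 2) (v 3) μ := by
    simp [map_sum, hwι, hp']
  have hne : ∑ μ ∈ Q.coeff.support, ((Q.coeff μ : K) * (w ^ k 2) ^ μ.1 * (w ^ k 3) ^ μ.2) *
      p' ^ ex Q (v 2) (v 3) μ * p' ^ 0 ≠ 0 := by
    intro h0
    rw [h0, map_zero, twoA_sum_eq Q _ _ α _ _ hα] at hval
    exact mul_ne_zero (pow_ne_zero _ hα) hQα hval.symm
  have key := h4 K ι' (ℤ × ℤ) Q.coeff.support
    (fun μ => (Q.coeff μ : K) * (w ^ k 2) ^ μ.1 * (w ^ k 3) ^ μ.2) (fun μ => ex Q (v 2) (v 3) μ)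
    (fun _ => 0) p' p' (2 * A1 Q (v 2) (v 3)) 0 h T T
    (fun μ hμ => ⟨twoA_int_term hg hwg _ _ _ _ _, twoA_ex_le Q _ _ hμ, le_rfl⟩) hhR
    (fun σ => by
      have hσ : (σ w) ^ g = 1 := by rw [← map_pow, hwg, map_one]
      have h5 := twoA_sum_norm Q ((σ w) ^ k 2) ((σ w) ^ k 3) (twoA_norm_zpow hg hσ _)
        (twoA_norm_zpow hg hσ _)
      have h6 : (Hn Q : ℝ) ≤ h := by exact_mod_cast hhQ
      simpa [map_zpow₀] using h5.le.trans h6)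
    hT0 hT0 hdvd hdvd hne
  rw [hval, pow_zero, mul_one] at key
  have b1 : (h : ℝ) ^ finrank ℚ K ≤ Real.exp (h * (4 * r * U)) := by
    refine twoA_pow_le_exp _ _ _ (by positivity) ?_
    refine le_trans ?_ (twoA_A1_le P g (v 0) (v 1) U r hrP (hU 0) (hU 1))
    exact_mod_cast hrkK
  have b2 : (cx T).mahlerMeasure ^ (2 * A1 Q (v 2) (v 3)) ≤ Real.exp (h * (4 * r * U)) := by
    refine le_trans (pow_le_pow_left₀ (mahlerMeasure_nonneg _) hM _) ?_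
    rw [← pow_mul]
    refine twoA_pow_le_exp _ _ _ (by positivity) ?_
    refine le_trans ?_ (twoA_A1_le Q g (v 2) (v 3) U r hrQ (hU 2) (hU 3))
    exact le_of_eq (by push_cast; ring)
  refine le_trans key ?_
  rw [mul_assoc]
  refine mul_le_mul_of_nonneg_left ?_ (norm_nonneg _)
  calc (h : ℝ) ^ finrank ℚ K * (cx T).mahlerMeasure ^ (2 * A1 Q (v 2) (v 3))
      ≤ Real.exp (h * (4 * r * U)) * Real.exp (h * (4 * r * U)) :=
        mul_le_mul b1 b2 (pow_nonneg (mahlerMeasure_nonneg _) _) (Real.exp_pos _).le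
    _ = Real.exp (8 * h * r * U) := by rw [← Real.exp_add]; congr 1; ring

/-- two very small values give a common root nearby. -/
theorem sTwoA (h1 : SNearP) (h2 : SField) (h3 : SNormP) (h4 : SLV) : STwoA := by
  intro P Q C₁
  obtain ⟨Cn, hCn⟩ := h1 P
  set h : ℕ := Hn P + Hn Q + 1 with hh
  set r : ℕ := Rn P + Rn Q with hr
  set C₂ : ℕ := 8 * h * r + h + 16 * r + C₁ + 2 with hC₂
  refine ⟨(Cn + 1) * C₂, ?_⟩
  intro g ω X₀ k v U hg hω hX hU hP0 hPs hQs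
  have hg1 : (1 : ℝ) ≤ g := by exact_mod_cast hg
  have hU1 : 1 ≤ U := by
    have e1 := hU 0
    have e2 := abs_nonneg (v 0 : ℝ)
    push_cast at e1
    nlinarith
  have hX0 : X₀ ≠ 0 := by
    rintro rfl
    simp at hX
  have hC₂R : (C₂ : ℝ) = 8 * h * r + h + 16 * r + C₁ + 2 := by rw [hC₂]; push_cast; ring
  have hh0 : (0 : ℝ) ≤ h := Nat.cast_nonneg _
  have hr0 : (0 : ℝ) ≤ r := Nat.cast_nonneg _
  have hC₁0 : (0 : ℝ) ≤ C₁ := Nat.cast_nonneg _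
  have hCn0 : (0 : ℝ) ≤ Cn := Nat.cast_nonneg _
  have hhr0 : (0 : ℝ) ≤ h * r := by positivity
  have hC₂2 : (2 : ℝ) ≤ C₂ := by rw [hC₂R]; nlinarith
  have hC₂1 : (C₁ : ℝ) ≤ C₂ := by rw [hC₂R]; nlinarith
  have hs0 : 0 ≤ (C₂ : ℝ) * U := by positivity
  obtain ⟨α, hα, halg, hαX, hPα⟩ := hCn g ω X₀ (k 0) (k 1) (v 0) (v 1) (C₂ * U) hg hω hX
    (by
      have := hU 0
      have := hU 1
      nlinarith) hP0
    (le_trans hPs (Real.exp_le_exp.mpr (by push_cast; nlinarith)))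
  refine ⟨α, hα, halg, le_trans hαX (Real.exp_le_exp.mpr (by nlinarith)), hPα, ?_⟩
  by_contra hQα
  have key := twoA_low h2 h3 h4 P Q g ω X₀ α k v U h r (by omega) (by omega) (by omega)
    (by omega) (by omega) hg hω hX0 hU hP0 hα halg hPα hQα
  have hωg := hω.pow_eq_one
  have hα2 : ‖α‖ ≤ 2 := by
    have e1 : Real.exp (-((C₂ : ℝ) * U)) ≤ 1 := Real.exp_le_one_iff.mpr (by linarith)
    have e2 : ‖α‖ ≤ ‖α - X₀‖ + ‖X₀‖ := by simpa using norm_add_le (α - X₀) X₀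
    linarith
  have hm : ((2 * A1 Q (v 2) (v 3) : ℕ) : ℝ) ≤ 4 * r * U := by
    refine le_trans ?_ (twoA_A1_le Q g (v 2) (v 3) U r (by omega) (hU 2) (hU 3))
    exact le_mul_of_one_le_left (Nat.cast_nonneg _) hg1
  have hX1 : ‖∑ μ ∈ Q.coeff.support, (Q.coeff μ : ℂ) * (ω ^ k 2) ^ μ.1 * (ω ^ k 3) ^ μ.2 *
      X₀ ^ ex Q (v 2) (v 3) μ‖ ≤ Real.exp (-(C₂ * U)) := by
    rw [twoA_sum_eq Q _ _ X₀ _ _ hX0, norm_mul, norm_pow, hX, one_pow, one_mul]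
    exact le_trans hQs (Real.exp_le_exp.mpr (by push_cast; nlinarith))
  have hdiff : ‖∑ μ ∈ Q.coeff.support, (Q.coeff μ : ℂ) * (ω ^ k 2) ^ μ.1 * (ω ^ k 3) ^ μ.2 *
      α ^ ex Q (v 2) (v 3) μ - ∑ μ ∈ Q.coeff.support, (Q.coeff μ : ℂ) * (ω ^ k 2) ^ μ.1 *
      (ω ^ k 3) ^ μ.2 * X₀ ^ ex Q (v 2) (v 3) μ‖ ≤
      h * (Real.exp (4 * (4 * r * U)) * Real.exp (-(C₂ * U))) := by
    rw [← Finset.sum_sub_distrib]
    refine le_trans (norm_sum_le _ _) ?_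
    calc ∑ μ ∈ Q.coeff.support, ‖(Q.coeff μ : ℂ) * (ω ^ k 2) ^ μ.1 * (ω ^ k 3) ^ μ.2 *
          α ^ ex Q (v 2) (v 3) μ - (Q.coeff μ : ℂ) * (ω ^ k 2) ^ μ.1 * (ω ^ k 3) ^ μ.2 *
          X₀ ^ ex Q (v 2) (v 3) μ‖
        ≤ ∑ μ ∈ Q.coeff.support, ‖(Q.coeff μ : ℂ) * (ω ^ k 2) ^ μ.1 * (ω ^ k 3) ^ μ.2‖ *
          (Real.exp (4 * (4 * r * U)) * Real.exp (-(C₂ * U))) := by
          refine Finset.sum_le_sum fun μ hμ => ?_
          rw [← mul_sub, norm_mul]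
          refine mul_le_mul_of_nonneg_left ?_ (norm_nonneg _)
          refine le_trans (twoA_pow_sub α X₀ hα2 hX.le _) ?_
          refine mul_le_mul ?_ hαX (norm_nonneg _) (Real.exp_pos _).le
          refine twoA_pow_le_exp 4 _ _ (by norm_num) (le_trans ?_ hm)
          exact_mod_cast twoA_ex_le Q _ _ hμ
      _ = (Hn Q : ℝ) * (Real.exp (4 * (4 * r * U)) * Real.exp (-(C₂ * U))) := by
          rw [← Finset.sum_mul, twoA_sum_norm Q _ _ (twoA_norm_zpow hg hωg _)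
            (twoA_norm_zpow hg hωg _)]
      _ ≤ _ := by
          refine mul_le_mul_of_nonneg_right ?_ (by positivity)
          have : Hn Q ≤ h := by omega
          exact_mod_cast this
  have hhe : (h : ℝ) ≤ Real.exp (h * U) := by
    have := Real.add_one_le_exp ((h : ℝ) * U)
    nlinarith
  have hsum : ‖∑ μ ∈ Q.coeff.support, (Q.coeff μ : ℂ) * (ω ^ k 2) ^ μ.1 * (ω ^ k 3) ^ μ.2 *
      α ^ ex Q (v 2) (v 3) μ‖ ≤ 2 * Real.exp ((h + 16 * r - C₂) * U) := by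
    refine le_trans (norm_le_norm_sub_add _ (∑ μ ∈ Q.coeff.support, (Q.coeff μ : ℂ) *
      (ω ^ k 2) ^ μ.1 * (ω ^ k 3) ^ μ.2 * X₀ ^ ex Q (v 2) (v 3) μ)) ?_
    have e1 : Real.exp (-((C₂ : ℝ) * U)) ≤ Real.exp ((h + 16 * r - C₂) * U) :=
      Real.exp_le_exp.mpr (by nlinarith)
    have e2 : (h : ℝ) * (Real.exp (4 * (4 * r * U)) * Real.exp (-(C₂ * U))) ≤
        Real.exp ((h + 16 * r - C₂) * U) := by
      calc (h : ℝ) * (Real.exp (4 * (4 * r * U)) * Real.exp (-(C₂ * U)))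
          ≤ Real.exp (h * U) * (Real.exp (4 * (4 * r * U)) * Real.exp (-(C₂ * U))) := by gcongr
        _ = _ := by rw [← Real.exp_add, ← Real.exp_add]; congr 1; ring
    linarith
  have hfin : 2 * Real.exp ((h + 16 * r - C₂) * U) * Real.exp (8 * h * r * U) < 1 := by
    rw [mul_assoc, ← Real.exp_add]
    have e1 : Real.exp ((h + 16 * r - C₂) * U + 8 * h * r * U) ≤ Real.exp (-2) :=
      Real.exp_le_exp.mpr (by rw [hC₂R]; nlinarith)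
    have e2 : Real.exp (-2) * Real.exp 2 = 1 := by rw [← Real.exp_add]; simp
    have e3 := Real.add_one_le_exp (2 : ℝ)
    have e4 := Real.exp_pos (-2 : ℝ)
    nlinarith
  have := mul_le_mul_of_nonneg_right hsum (Real.exp_pos (8 * h * r * U)).le
  linarith

end Pool.Agent.MP_c1891a_nt.H43
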